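import Pool.Agent.W2helper60.RG.Four

set_option autoImplicit false

/-! # Families with small exponential sums modulo `m` in boxes and residue classes -/

namespace Pool.Agent.W2helper60.RG

open Finset

lemma prod_diff {β : Type*} (t : Finset β) (a b H : β → ℝ) (ha0 : ∀ j, 0 ≤ a j)
    (ha : ∀ j, a j ≤ H j) (hb0 : ∀ j, 0 ≤ b j) (hb : ∀ j, b j ≤ H j) (hab : ∀ j, |a j - b j| ≤ 1)
    (hH : ∀ j, 0 < H j) :
    |∏ j ∈ t, a j - ∏ j ∈ t, b j| ≤ (∑ j ∈ t, 1 / H j) * ∏ j ∈ t, H j := by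
  classical
  induction t using Finset.induction_on with
  | empty => simp
  | insert i t hi ih =>
    rw [prod_insert hi, prod_insert hi, prod_insert hi, sum_insert hi]
    have hP : 0 ≤ ∏ j ∈ t, H j := prod_nonneg fun j _ => (hH j).le
    have hb1 : |∏ j ∈ t, b j| ≤ ∏ j ∈ t, H j := by
      rw [abs_of_nonneg (prod_nonneg fun j _ => hb0 j)]
      exact prod_le_prod (fun j _ => hb0 j) fun j _ => hb j
    have e : a i * ∏ j ∈ t, a j - b i * ∏ j ∈ t, b j =
        a i * (∏ j ∈ t, a j - ∏ j ∈ t, b j) + (a i - b i) * ∏ j ∈ t, b j := by ring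
    rw [e]
    calc _ ≤ |a i * (∏ j ∈ t, a j - ∏ j ∈ t, b j)| + |(a i - b i) * ∏ j ∈ t, b j| := abs_add_le _ _
      _ = a i * |∏ j ∈ t, a j - ∏ j ∈ t, b j| + |a i - b i| * |∏ j ∈ t, b j| := by
          rw [abs_mul, abs_mul, abs_of_nonneg (ha0 i)]
      _ ≤ H i * ((∑ j ∈ t, 1 / H j) * ∏ j ∈ t, H j) + 1 * ∏ j ∈ t, H j := by
          refine add_le_add (mul_le_mul (ha i) ih (abs_nonneg _) (hH i).le)
            (mul_le_mul (hab i) hb1 (abs_nonneg _) zero_le_one)
      _ = _ := by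
          have := (hH i).ne'
          field_simp
          ring

/-- the members of the family in the box -/
def inBox {α : Type*} {k : ℕ} (s : Finset α) (v : α → Fin k → ℤ) (u : Fin k → ℤ) (H : Fin k → ℕ) :
    Finset α :=
  s.filter (fun a => ∀ j, u j ≤ v a j ∧ v a j < u j + H j)

/-- the members of the family in a box and in residue classes -/
theorem dist {α : Type*} {k : ℕ} (m : ℕ) [NeZero m] (s : Finset α) (v : α → Fin k → ℤ)
    (hv : ∀ a ∈ s, ∀ j, 0 ≤ v a j ∧ v a j < m) (E : ℝ)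
    (hE : ∀ h : Fin k → ZMod m, h ≠ 0 →
      ‖∑ a ∈ s, (ZMod.stdAddChar (∑ j, h j * (v a j : ZMod m)) : ℂ)‖ ≤ E) (hE0 : 0 ≤ E)
    (u : Fin k → ℤ) (H : Fin k → ℕ) (hu : ∀ j, 0 ≤ u j) (huH : ∀ j, u j + H j ≤ m)
    (hH : ∀ j, 0 < H j) :
    (|((inBox s v u H).card : ℝ) - s.card * ∏ j, ((H j : ℝ) / m)| ≤ E * (2 + Real.log m) ^ k) ∧
    ∀ q : ℕ, 1 ≤ q → ∀ ρ : Fin k → ℤ,
      |(((inBox s v u H).filter (fun a => ∀ j, (q : ℤ) ∣ v a j - ρ j)).card : ℝ) -
        (inBox s v u H).card / (q : ℝ) ^ k| ≤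
        2 * (E * (q * (2 + Real.log m)) ^ k) +
          (s.card * ∏ j, ((H j : ℝ) / m)) * ∑ j, 1 / (H j : ℝ) := by
  classical
  have hm0 : 0 < m := Nat.pos_of_ne_zero (NeZero.ne m)
  have hm1 : (1 : ℝ) ≤ m := by exact_mod_cast hm0
  have hmr : (0 : ℝ) < m := by linarith
  have hlog : 0 ≤ Real.log m := Real.log_nonneg hm1
  have hHm : ∀ j, H j ≤ m := fun j => by
    have h1 := huH j
    have h2 := hu j
    omega
  -- the general count
  have key : ∀ q : ℕ, 1 ≤ q → ∀ ρ : Fin k → ℤ,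
      |((s.filter (fun a => ∀ j, v a j ∈ (Ico (u j) (u j + H j)).filter
        (fun x => x ≡ ρ j [ZMOD q]))).card : ℝ) -
        s.card * ∏ j, ((((Ico (u j) (u j + H j)).filter (fun x => x ≡ ρ j [ZMOD q])).card : ℝ) / m)| ≤
      E * (q * (2 + Real.log m)) ^ k := by
    intro q hq ρ
    have h1 := count_box m s v hv E hE hE0 (fun j => (Ico (u j) (u j + H j)).filter
        (fun x => x ≡ ρ j [ZMOD q])) (by
      intro j x hx
      rw [mem_filter, mem_Ico] at hx
      have h1 := huH j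
      have h2 := hu j
      constructor <;> omega)
    refine h1.trans (mul_le_mul_of_nonneg_left ?_ hE0)
    calc _ ≤ ∏ _j : Fin k, ((q : ℝ) * (2 + Real.log m)) := by
          refine prod_le_prod (fun j _ => sum_nonneg fun _ _ => norm_nonneg _) fun j _ => ?_
          exact l1_prog m q hq (ρ j) (u j) (H j) (hHm j)
      _ = _ := by simp
  have hbox : |((inBox s v u H).card : ℝ) - s.card * ∏ j, ((H j : ℝ) / m)| ≤
      E * (2 + Real.log m) ^ k := by
    have h1 := key 1 le_rfl (fun _ => 0)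
    have h2 : ∀ j, (Ico (u j) (u j + H j)).filter (fun x => x ≡ (0 : ℤ) [ZMOD ((1 : ℕ) : ℤ)]) =
        Ico (u j) (u j + H j) := by
      intro j
      rw [filter_eq_self]
      intro x _
      rw [Nat.cast_one]
      exact Int.modEq_one
    simp only [h2] at h1
    have h3 : ∀ j, ((Ico (u j) (u j + (H j : ℤ))).card : ℝ) = H j := by
      intro j
      rw [Int.card_Ico]
      congr 1
      omega
    simp only [h3, mem_Ico, Nat.cast_one, one_mul] at h1
    exact h1
  refine ⟨hbox, fun q hq ρ => ?_⟩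
  have hq1 : (1 : ℝ) ≤ q := by exact_mod_cast hq
  have hq0 : (0 : ℝ) < q := by linarith
  set N : ℝ := (s.card : ℝ) with hN
  have hN0 : 0 ≤ N := Nat.cast_nonneg _
  set b : Fin k → ℝ := fun j =>
    (((Ico (u j) (u j + H j)).filter (fun x => x ≡ ρ j [ZMOD q])).card : ℝ) with hb
  have hcnt : ((inBox s v u H).filter (fun a => ∀ j, (q : ℤ) ∣ v a j - ρ j)) =
      s.filter (fun a => ∀ j, v a j ∈ (Ico (u j) (u j + H j)).filter
        (fun x => x ≡ ρ j [ZMOD q])) := by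
    unfold inBox
    rw [filter_filter]
    refine filter_congr fun a _ => ?_
    constructor
    · rintro ⟨h1, h2⟩ j
      rw [mem_filter, mem_Ico]
      exact ⟨h1 j, (Int.modEq_iff_dvd.2 (h2 j)).symm⟩
    · intro h
      refine ⟨fun j => ?_, fun j => ?_⟩
      · have h1 := h j
        rw [mem_filter, mem_Ico] at h1
        exact h1.1
      · have h1 := h j
        rw [mem_filter] at h1
        exact Int.modEq_iff_dvd.1 h1.2.symm
  rw [hcnt]
  have h1 := key q hq ρ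
  have hqk : (1 : ℝ) ≤ (q : ℝ) ^ k := one_le_pow₀ hq1
  have hqk0 : (0 : ℝ) < (q : ℝ) ^ k := by linarith
  -- the main terms
  have h2 : |∏ j, b j - ∏ j, ((H j : ℝ) / q)| ≤ (∑ j, 1 / (H j : ℝ)) * ∏ j, (H j : ℝ) := by
    refine prod_diff univ b (fun j => (H j : ℝ) / q) (fun j => (H j : ℝ)) (fun j => ?_) (fun j => ?_)
      (fun j => ?_) (fun j => ?_) (fun j => ?_) (fun j => ?_)
    · exact Nat.cast_nonneg _
    · have h3 : ((Ico (u j) (u j + (H j : ℤ))).filter (fun x => x ≡ ρ j [ZMOD q])).card ≤ H j := by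
        refine (card_filter_le _ _).trans ?_
        rw [Int.card_Ico]
        omega
      have h4 : ((((Ico (u j) (u j + (H j : ℤ))).filter (fun x => x ≡ ρ j [ZMOD q])).card : ℕ) : ℝ) ≤
          ((H j : ℕ) : ℝ) := Nat.cast_le.2 h3
      exact h4
    · positivity
    · exact div_le_self (Nat.cast_nonneg _) hq1
    · exact card_prog q hq (ρ j) (u j) (H j)
    · exact_mod_cast hH j
  have h3 : |N * ∏ j, (b j / m) - N * (∏ j, ((H j : ℝ) / m)) / (q : ℝ) ^ k| ≤
      (N * ∏ j, ((H j : ℝ) / m)) * ∑ j, 1 / (H j : ℝ) := by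
    have e1 : ∏ j, (b j / m) = (∏ j, b j) / (m : ℝ) ^ k := by
      rw [prod_div_distrib]
      simp
    have e2 : ∏ j, ((H j : ℝ) / m) = (∏ j, (H j : ℝ)) / (m : ℝ) ^ k := by
      rw [prod_div_distrib]
      simp
    have e3 : ∏ j, ((H j : ℝ) / q) = (∏ j, (H j : ℝ)) / (q : ℝ) ^ k := by
      rw [prod_div_distrib]
      simp
    rw [e3] at h2
    rw [e1, e2]
    have e4 : N * ((∏ j, b j) / (m : ℝ) ^ k) - N * ((∏ j, (H j : ℝ)) / (m : ℝ) ^ k) / (q : ℝ) ^ k =
        N / (m : ℝ) ^ k * (∏ j, b j - (∏ j, (H j : ℝ)) / (q : ℝ) ^ k) := by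
      field_simp
    rw [e4, abs_mul, abs_of_nonneg (by positivity)]
    calc _ ≤ N / (m : ℝ) ^ k * ((∑ j, 1 / (H j : ℝ)) * ∏ j, (H j : ℝ)) :=
          mul_le_mul_of_nonneg_left h2 (by positivity)
      _ = _ := by field_simp
  have h4 : E * (2 + Real.log m) ^ k ≤ E * (q * (2 + Real.log m)) ^ k := by
    apply mul_le_mul_of_nonneg_left _ hE0
    apply pow_le_pow_left₀ (by positivity)
    nlinarith
  have h5 : |N * (∏ j, ((H j : ℝ) / m)) / (q : ℝ) ^ k - (inBox s v u H).card / (q : ℝ) ^ k| ≤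
      E * (q * (2 + Real.log m)) ^ k := by
    rw [← sub_div, abs_div, abs_of_pos hqk0, abs_sub_comm]
    exact (div_le_self (abs_nonneg _) hqk).trans (hbox.trans h4)
  have h6 := abs_le.1 h1
  have h7 := abs_le.1 h3
  have h8 := abs_le.1 h5
  rw [abs_le]
  constructor <;> linarith [h6.1, h6.2, h7.1, h7.2, h8.1, h8.2]

end Pool.Agent.W2helper60.RG
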