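import Pool.Agent.W2helper60.RG.Mono
import Pool.Agent.W2helper60.RG.Dist
import Pool.Agent.W147.PS.Scale

set_option autoImplicit false

/-! # Record gaps at the members of a pseudorandom family modulo `m` -/

namespace Pool.Agent.W2helper60.RG

open Finset Filter Topology
open Pool.Agent.W147.PS (ff ff_compare ev_pow)
open Pool.Agent.N542.PT (WellDist)

open scoped Classical

/-- all the integers near the monomials with coprime exponents `≤ K` have a prime factor `≤ y` -/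
def GoodM {k : ℕ} (K : ℕ) (ρ y : ℝ) (v : Fin k → ℤ) : Prop :=
  ∀ e : Fin k → ℕ, (∀ i, e i ≤ K) → Finset.univ.gcd e = 1 →
    ∀ n : ℤ, |(n : ℝ) - ∏ i, (v i : ℝ) ^ e i| ≤ ρ → ∃ p : ℕ, p.Prime ∧ (p : ℝ) ≤ y ∧ (p : ℤ) ∣ n

lemma ev_log (k : ℕ) (a : ℝ) (ha : 0 < a) : ∀ᶠ M : ℝ in atTop, (2 + Real.log M) ^ k ≤ M ^ a := by
  have ha' : 0 < a / (k + 1) := by positivity
  have h1 := (isLittleO_log_rpow_atTop ha').def (show (0 : ℝ) < 1 / 2 by norm_num)
  have h2 := (tendsto_rpow_atTop ha').eventually_ge_atTop 4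
  filter_upwards [h1, h2, eventually_ge_atTop (1 : ℝ)] with M h3 h4 h5
  have hM0 : 0 < M := by linarith
  have hl : 0 ≤ Real.log M := Real.log_nonneg h5
  rw [Real.norm_of_nonneg hl, Real.norm_of_nonneg (by positivity)] at h3
  have h6 : 2 + Real.log M ≤ M ^ (a / (k + 1)) := by linarith
  calc (2 + Real.log M) ^ k ≤ (M ^ (a / (k + 1))) ^ k := pow_le_pow_left₀ (by linarith) h6 k
    _ = M ^ (a / (k + 1) * k) := by rw [← Real.rpow_natCast, ← Real.rpow_mul hM0.le]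
    _ ≤ M ^ a := by
        apply Real.rpow_le_rpow_of_exponent_le h5
        rw [div_mul_eq_mul_div, div_le_iff₀ (by positivity)]
        nlinarith

theorem core (k K : ℕ) (δ ε : ℝ) (hε : 0 < ε) (hε1 : ε ≤ 1) (hδ1 : δ ≤ 1) :
    ∃ κ : ℝ, 0 < κ ∧ ∀ᶠ M : ℝ in atTop, ∀ m : ℕ, (m : ℝ) = M → ∀ [NeZero m],
    ∀ (α : Type) (s : Finset α) (v : α → Fin k → ℤ), s.Nonempty →
    (∀ a ∈ s, ∀ j, 0 ≤ v a j ∧ v a j < m) →
    (∀ h : Fin k → ZMod m, h ≠ 0 →
      ‖∑ a ∈ s, (ZMod.stdAddChar (∑ j, h j * (v a j : ZMod m)) : ℂ)‖ ≤ s.card * (m : ℝ) ^ (-δ)) →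
    ∀ (u : Fin k → ℤ) (H : Fin k → ℕ), (∀ j, 0 ≤ u j) → (∀ j, u j + H j ≤ m) →
    (m : ℝ) ^ ((k : ℝ) - δ + ε) ≤ ∏ j, (H j : ℝ) →
    (s.card * ∏ j, ((H j : ℝ) / m)) * (m : ℝ) ^ (-ε) ≤
      (((inBox s v u H).filter (fun a => GoodM K (κ * ff m)
        ((m : ℝ) ^ (ε / (40 * (k + 1)))) (v a))).card : ℝ) := by
  obtain ⟨c, hc, Z₀, hcrit⟩ := monomialsA k K
  have hk1 : (0 : ℝ) < (k : ℝ) + 1 := by positivity
  set η : ℝ := ε / (4 * (k + 1)) with hη
  have hη0 : 0 < η := by positivity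
  have hηk : η * (k + 1) = ε / 4 := by rw [hη]; field_simp
  have hη1 : η ≤ 1 := by
    have h1 : (1 : ℝ) ≤ k + 1 := by
      have : (0 : ℝ) ≤ k := Nat.cast_nonneg k
      linarith
    nlinarith
  have hηk' : η * k ≤ ε / 4 := by nlinarith
  refine ⟨c * (η / 32), by positivity, ?_⟩
  filter_upwards [ff_compare η hη0 hη1, (tendsto_rpow_atTop hη0).eventually_ge_atTop Z₀,
    ev_log k (ε / 8) (by positivity), ev_pow (-ε + ε / 4 + ε / 8) (-(ε / 2)) 16 (by linarith),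
    ev_pow (-ε) (-(ε / 2)) (8 * (k + 1)) (by linarith), ev_pow (-(ε / 2)) (-(ε / 4)) 2 (by linarith),
    ev_pow (-ε) (-(ε / 2)) 16 (by linarith), eventually_ge_atTop (1 : ℝ)]
    with M f1 f2 f3 f4 f5 f6 f7 hM1
  intro m hmM _ α s v hs hv hE u H hu huH hV
  subst hmM
  have hm0 : (0 : ℝ) < m := by linarith
  have hlog : 0 ≤ Real.log m := Real.log_nonneg hM1
  obtain ⟨N, hN⟩ : ∃ N : ℝ, N = (s.card : ℝ) := ⟨_, rfl⟩
  have hN0 : 0 < N := by
    rw [hN]
    exact_mod_cast Finset.card_pos.2 hs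
  obtain ⟨x, hx⟩ : ∃ x : ℝ, x = (m : ℝ) ^ (-(ε / 2)) := ⟨_, rfl⟩
  have hx0 : 0 < x := by rw [hx]; positivity
  have hx1 : x ≤ 1 := by
    rw [hx]
    exact Real.rpow_le_one_of_one_le_of_nonpos hM1 (by linarith)
  obtain ⟨T, hT⟩ : ∃ T : ℝ, T = N * ∏ j, ((H j : ℝ) / m) := ⟨_, rfl⟩
  have hHm : ∀ j, (H j : ℝ) ≤ m := fun j => by
    have h1 := huH j
    have h2 := hu j
    have h3 : H j ≤ m := by omega
    exact_mod_cast h3
  have hprod : ∏ j, ((H j : ℝ) / m) = (∏ j, (H j : ℝ)) / (m : ℝ) ^ k := by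
    rw [prod_div_distrib]
    simp
  have hpp : (m : ℝ) ^ (-δ + ε) ≤ ∏ j, ((H j : ℝ) / m) := by
    rw [hprod, le_div_iff₀ (by positivity), ← Real.rpow_natCast, ← Real.rpow_add hm0]
    refine le_trans (le_of_eq ?_) hV
    congr 1
    ring
  have hTlow : N * (m : ℝ) ^ (-δ) * (m : ℝ) ^ ε ≤ T := by
    rw [hT, mul_assoc, ← Real.rpow_add hm0]
    exact mul_le_mul_of_nonneg_left hpp hN0.le
  have hT0 : 0 < T := lt_of_lt_of_le (by positivity) hTlow
  -- lower bound for the sides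
  have hHlow : ∀ j, (m : ℝ) ^ ε ≤ H j := by
    intro j
    have h1 : ∏ i, (H i : ℝ) ≤ H j * (m : ℝ) ^ ((k : ℝ) - 1) := by
      rw [← mul_prod_erase univ _ (mem_univ j)]
      apply mul_le_mul_of_nonneg_left _ (Nat.cast_nonneg _)
      calc ∏ i ∈ univ.erase j, (H i : ℝ) ≤ ∏ _i ∈ univ.erase j, (m : ℝ) :=
            prod_le_prod (fun i _ => Nat.cast_nonneg _) fun i _ => hHm i
        _ = (m : ℝ) ^ (k - 1 : ℕ) := by
            rw [prod_const, card_erase_of_mem (mem_univ j), card_univ, Fintype.card_fin]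
        _ = (m : ℝ) ^ ((k : ℝ) - 1) := by
            rw [← Real.rpow_natCast, Nat.cast_sub (by have := j.2; omega), Nat.cast_one]
    have h2 : (m : ℝ) ^ ε * (m : ℝ) ^ ((k : ℝ) - 1) ≤ H j * (m : ℝ) ^ ((k : ℝ) - 1) := by
      refine le_trans ?_ (hV.trans h1)
      rw [← Real.rpow_add hm0]
      apply Real.rpow_le_rpow_of_exponent_le hM1
      linarith
    exact le_of_mul_le_mul_right h2 (by positivity)
  have hHpos : ∀ j, 0 < H j := by
    intro j
    have h1 : (0 : ℝ) < H j := lt_of_lt_of_le (by positivity) (hHlow j)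
    exact_mod_cast h1
  have hEE : 0 ≤ N * (m : ℝ) ^ (-δ) := by positivity
  obtain ⟨hbox, hcls⟩ := dist m s v hv (N * (m : ℝ) ^ (-δ)) (by
    intro h hh
    rw [hN]
    exact hE h hh) hEE u H hu huH hHpos
  rw [← hN, ← hT] at hbox
  have hsum : T * ∑ j, 1 / (H j : ℝ) ≤ T * x / 8 := by
    have h1 : ∑ j, 1 / (H j : ℝ) ≤ (k + 1) * (m : ℝ) ^ (-ε) := by
      calc ∑ j, 1 / (H j : ℝ) ≤ ∑ _j : Fin k, (m : ℝ) ^ (-ε) := by
            refine sum_le_sum fun j _ => ?_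
            rw [Real.rpow_neg hm0.le, ← one_div]
            exact one_div_le_one_div_of_le (by positivity) (hHlow j)
        _ = k * (m : ℝ) ^ (-ε) := by simp
        _ ≤ _ := mul_le_mul_of_nonneg_right (by linarith) (by positivity)
    have h2 : (k + 1) * (m : ℝ) ^ (-ε) ≤ x / 8 := by
      rw [hx]
      linarith
    calc _ ≤ T * (x / 8) := mul_le_mul_of_nonneg_left (h1.trans h2) hT0.le
      _ = _ := by ring
  have herr : ∀ q : ℕ, 1 ≤ q → (q : ℝ) ≤ (m : ℝ) ^ η →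
      N * (m : ℝ) ^ (-δ) * (q * (2 + Real.log m)) ^ k ≤ T * x / 16 := by
    intro q hq hqZ
    have h1 : (q : ℝ) ^ k ≤ (m : ℝ) ^ (ε / 4) := by
      calc (q : ℝ) ^ k ≤ ((m : ℝ) ^ η) ^ k := pow_le_pow_left₀ (Nat.cast_nonneg _) hqZ k
        _ = (m : ℝ) ^ (η * k) := by rw [← Real.rpow_natCast, ← Real.rpow_mul hm0.le]
        _ ≤ _ := Real.rpow_le_rpow_of_exponent_le hM1 hηk'
    have h2 : (m : ℝ) ^ (-ε) * ((m : ℝ) ^ (ε / 4) * (m : ℝ) ^ (ε / 8)) ≤ x / 16 := by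
      rw [← Real.rpow_add hm0, ← Real.rpow_add hm0, hx]
      have h3 : -ε + (ε / 4 + ε / 8) = -ε + ε / 4 + ε / 8 := by ring
      rw [h3]
      linarith
    calc N * (m : ℝ) ^ (-δ) * (q * (2 + Real.log m)) ^ k =
          N * (m : ℝ) ^ (-δ) * ((q : ℝ) ^ k * (2 + Real.log m) ^ k) := by rw [mul_pow]
      _ ≤ N * (m : ℝ) ^ (-δ) * ((m : ℝ) ^ (ε / 4) * (m : ℝ) ^ (ε / 8)) := by
          apply mul_le_mul_of_nonneg_left _ hEE
          exact mul_le_mul h1 f3 (by positivity) (by positivity)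
      _ = (N * (m : ℝ) ^ (-δ) * (m : ℝ) ^ ε) *
          ((m : ℝ) ^ (-ε) * ((m : ℝ) ^ (ε / 4) * (m : ℝ) ^ (ε / 8))) := by
          have h4 : (m : ℝ) ^ ε * (m : ℝ) ^ (-ε) = 1 := by
            rw [← Real.rpow_add hm0]; simp
          calc _ = (N * (m : ℝ) ^ (-δ)) * ((m : ℝ) ^ ε * (m : ℝ) ^ (-ε)) *
                ((m : ℝ) ^ (ε / 4) * (m : ℝ) ^ (ε / 8)) := by rw [h4]; ring
            _ = _ := by ring
      _ ≤ T * (x / 16) := mul_le_mul hTlow h2 (by positivity) hT0.le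
      _ = _ := by ring
  have hZ1 : (1 : ℝ) ≤ (m : ℝ) ^ η := Real.one_le_rpow hM1 hη0.le
  have hbox2 : |((inBox s v u H).card : ℝ) - T| ≤ T * x / 16 := by
    refine hbox.trans ?_
    have h1 := herr 1 le_rfl (by simpa using hZ1)
    simpa using h1
  have hbig : T / 2 ≤ ((inBox s v u H).card : ℝ) := by
    have h1 := (abs_le.1 hbox2).1
    nlinarith
  -- the good members
  set G : Finset α := (inBox s v u H).filter (fun a => GoodM K (c * (η / 32) * ff m)
        ((m : ℝ) ^ (ε / (40 * (k + 1)))) (v a)) with hG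
  have hGs : G ⊆ inBox s v u H := filter_subset _ _
  have hkey : T * x / 16 ≤ (G.card : ℝ) := by
    by_contra hlt
    rw [not_le] at hlt
    set t : Finset α := (inBox s v u H) \ G with ht
    have htcard : (t.card : ℝ) = (inBox s v u H).card - G.card := by
      rw [ht, card_sdiff_of_subset hGs, Nat.cast_sub (card_le_card hGs)]
    have htbig : T / 4 ≤ t.card := by
      rw [htcard]
      nlinarith
    have htne : t.Nonempty := by
      rw [← Finset.card_pos]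
      have h1 : (0 : ℝ) < t.card := by linarith
      exact_mod_cast h1
    have hwd : WellDist ((m : ℝ) ^ η) t v := by
      intro q hq hqZ ρ
      have h1 := hcls q hq ρ
      rw [← hN, ← hT] at h1
      have h2 := herr q hq hqZ
      have hq1 : (1 : ℝ) ≤ q := by exact_mod_cast hq
      have hqk : (1 : ℝ) ≤ (q : ℝ) ^ k := one_le_pow₀ hq1
      obtain ⟨A, hA⟩ : ∃ A : ℝ, A = (((inBox s v u H).filter (fun a => ∀ j, (q : ℤ) ∣ v a j - ρ j)).card : ℝ) :=
        ⟨_, rfl⟩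
      obtain ⟨B, hB⟩ : ∃ B : ℝ, B = ((G.filter (fun a => ∀ j, (q : ℤ) ∣ v a j - ρ j)).card : ℝ) :=
        ⟨_, rfl⟩
      have h3 : ((t.filter (fun a => ∀ j, (q : ℤ) ∣ v a j - ρ j)).card : ℝ) = A - B := by
        have h4 : t.filter (fun a => ∀ j, (q : ℤ) ∣ v a j - ρ j) =
            (inBox s v u H).filter (fun a => ∀ j, (q : ℤ) ∣ v a j - ρ j) \
              G.filter (fun a => ∀ j, (q : ℤ) ∣ v a j - ρ j) := by
          ext a
          rw [ht]
          constructor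
          · intro h
            rw [mem_filter, Finset.mem_sdiff] at h
            rw [Finset.mem_sdiff, mem_filter, mem_filter]
            exact ⟨⟨h.1.1, h.2⟩, fun h' => h.1.2 h'.1⟩
          · intro h
            rw [Finset.mem_sdiff, mem_filter, mem_filter] at h
            rw [mem_filter, Finset.mem_sdiff]
            exact ⟨⟨h.1.1, fun h' => h.2 ⟨h', h.1.2⟩⟩, h.1.2⟩
        rw [h4, card_sdiff_of_subset (filter_subset_filter _ hGs),
          Nat.cast_sub (card_le_card (filter_subset_filter _ hGs)), hA, hB]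
      have h5 : B ≤ G.card := by
        rw [hB]
        exact_mod_cast card_filter_le _ _
      have h6 : 0 ≤ B := by rw [hB]; exact Nat.cast_nonneg _
      have h7 : (G.card : ℝ) / (q : ℝ) ^ k ≤ G.card := div_le_self (Nat.cast_nonneg _) hqk
      have h8 : 0 ≤ (G.card : ℝ) / (q : ℝ) ^ k := by positivity
      have h9 : |A - B - (t.card : ℝ) / (q : ℝ) ^ k| ≤ 3 / 8 * (T * x) := by
        rw [← hA] at h1
        have h10 := abs_le.1 h1
        rw [htcard, sub_div, abs_le]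
        constructor <;> nlinarith [h10.1, h10.2]
      rw [h3]
      refine h9.trans ?_
      have h11 : 2 * x ≤ ((m : ℝ) ^ η) ^ (-((k : ℝ) + 1)) := by
        rw [← Real.rpow_mul hm0.le, hx]
        have h12 : η * -((k : ℝ) + 1) = -(ε / 4) := by rw [mul_neg, hηk]
        rw [h12]
        linarith
      calc 3 / 8 * (T * x) ≤ (t.card : ℝ) * (2 * x) := by nlinarith
        _ ≤ _ := mul_le_mul_of_nonneg_left h11 (Nat.cast_nonneg _)
    obtain ⟨a, ha, ha2⟩ := hcrit ((m : ℝ) ^ η) f2 α t v htne hwd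
    rw [ht, Finset.mem_sdiff] at ha
    apply ha.2
    rw [hG, mem_filter]
    have hle : c * (η / 32) * ff m ≤ c * Pool.Agent.H256R2.SC.ff ((m : ℝ) ^ η) := by
      have h1 := (f1.2 ((m : ℝ) ^ η) le_rfl (by
        calc (m : ℝ) ^ η ≤ (m : ℝ) ^ (2 : ℝ) :=
              Real.rpow_le_rpow_of_exponent_le hM1 (by linarith)
          _ = (m : ℝ) ^ 2 := by norm_num)).1
      calc c * (η / 32) * ff m = c * (η / 32 * ff m) := by ring
        _ ≤ c * ff ((m : ℝ) ^ η) := mul_le_mul_of_nonneg_left h1 hc.le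
        _ = _ := rfl
    refine ⟨ha.1, fun e he hg n hn => ?_⟩
    obtain ⟨p, hp1, hp2, hp3⟩ := ha2 e he hg n (hn.trans hle)
    refine ⟨p, hp1, hp2.trans (le_of_eq ?_), hp3⟩
    rw [← Real.rpow_mul hm0.le, hη]
    congr 1
    field_simp
    ring
  rw [← hN, ← hT]
  refine le_trans ?_ hkey
  have h1 : (m : ℝ) ^ (-ε) ≤ x / 16 := by
    rw [hx]
    linarith
  calc T * (m : ℝ) ^ (-ε) ≤ T * (x / 16) := mul_le_mul_of_nonneg_left h1 hT0.le
    _ = _ := by ring

end Pool.Agent.W2helper60.RG
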