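import Pool.Agent.W2helper60.RG.Core

set_option autoImplicit false

/-! # Record gaps at the members of a pseudorandom family modulo `m`: the final form -/

namespace Pool.Agent.W2helper60.RG

open Finset Filter Topology
open Pool.Agent.W147.PS (ff ff_compare ev_pow)

open scoped Classical

/-- no prime number within `ρ` of a monomial with coprime exponents `≤ K` in the coordinates -/
def Far {k : ℕ} (K : ℕ) (ρ : ℝ) (v : Fin k → ℤ) : Prop :=
  ∀ e : Fin k → ℕ, (∀ i, e i ≤ K) → Finset.univ.gcd e = 1 →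
    ∀ q : ℕ, q.Prime → ρ < |(q : ℝ) - ∏ i, (v i : ℝ) ^ e i|

lemma exists_ne_zero {k : ℕ} (e : Fin k → ℕ) (he : Finset.univ.gcd e = 1) : ∃ i, e i ≠ 0 := by
  by_contra hcon
  push Not at hcon
  have h1 : Finset.univ.gcd e = 0 := by
    rw [Finset.gcd_eq_zero_iff]
    exact fun i _ => hcon i
  omega

lemma far_of_good {k : ℕ} (K : ℕ) (ρ y U : ℝ) (v : Fin k → ℤ) (hU1 : 1 ≤ U)
    (hU : ∀ j, U ≤ (v j : ℝ)) (hUy : y + ρ < U) (h : GoodM K ρ y v) : Far K ρ v := by
  intro e he hg q hq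
  by_contra hcon
  rw [not_lt] at hcon
  obtain ⟨p, hp1, hp2, hp3⟩ := h e he hg (q : ℤ) (by push_cast; exact hcon)
  have h1 : p ∣ q := by exact_mod_cast hp3
  have h2 : p = q := (Nat.prime_dvd_prime_iff_eq hp1 hq).1 h1
  subst h2
  obtain ⟨i, hi⟩ := exists_ne_zero e hg
  have h3 : U ≤ ∏ j, (v j : ℝ) ^ e j := by
    rw [← mul_prod_erase univ _ (mem_univ i)]
    have h4 : (1 : ℝ) ≤ ∏ j ∈ univ.erase i, (v j : ℝ) ^ e j := by
      have h5 : ∏ _j ∈ univ.erase i, (1 : ℝ) ≤ ∏ j ∈ univ.erase i, (v j : ℝ) ^ e j :=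
        prod_le_prod (fun _ _ => zero_le_one) fun j _ => one_le_pow₀ (hU1.trans (hU j))
      simpa using h5
    have h5 : U ≤ (v i : ℝ) ^ e i := by
      calc U ≤ (v i : ℝ) := hU i
        _ ≤ (v i : ℝ) ^ e i := le_self_pow₀ (hU1.trans (hU i)) hi
    nlinarith
  have h6 := (abs_le.1 hcon).1
  linarith

lemma ev_ff (κ a : ℝ) (ha : 0 < a) : ∀ᶠ M : ℝ in atTop, κ * ff M ≤ M ^ a := by
  have t1 : Tendsto Real.log atTop atTop := Real.tendsto_log_atTop
  have t2 : Tendsto (fun M : ℝ => Real.log (Real.log M)) atTop atTop := t1.comp t1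
  have t3 : Tendsto (fun M : ℝ => Real.log (Real.log (Real.log M))) atTop atTop := t1.comp t2
  filter_upwards [t1.eventually_ge_atTop 1, t2.eventually_ge_atTop 1, t3.eventually_ge_atTop 1,
    ev_log 4 (a / 2) (by positivity), ev_pow (a / 2) a |κ| (by linarith),
    eventually_ge_atTop (1 : ℝ)] with M h1 h2 h3 h4 h5 h6
  have e1 : Real.log (Real.log M) ≤ Real.log M := by
    have := Real.log_le_sub_one_of_pos (show 0 < Real.log M by linarith)
    linarith
  have e2 : Real.log (Real.log (Real.log M)) ≤ Real.log (Real.log M) := by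
    have := Real.log_le_sub_one_of_pos (show 0 < Real.log (Real.log M) by linarith)
    linarith
  have e3 : Real.log (Real.log (Real.log (Real.log M))) ≤ Real.log (Real.log (Real.log M)) := by
    have := Real.log_le_sub_one_of_pos (show 0 < Real.log (Real.log (Real.log M)) by linarith)
    linarith
  have e4 : 0 ≤ Real.log (Real.log (Real.log (Real.log M))) := Real.log_nonneg h3
  have e5 : |ff M| ≤ (2 + Real.log M) ^ 4 := by
    have h7 : ff M = Real.log M * (Real.log (Real.log M)) ^ 2 *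
      Real.log (Real.log (Real.log (Real.log M))) / (Real.log (Real.log (Real.log M))) ^ 2 := rfl
    have h8 : 0 ≤ ff M := by
      rw [h7]
      positivity
    rw [abs_of_nonneg h8, h7]
    have h9 : (1 : ℝ) ≤ (Real.log (Real.log (Real.log M))) ^ 2 := one_le_pow₀ h3
    calc _ ≤ Real.log M * (Real.log (Real.log M)) ^ 2 *
          Real.log (Real.log (Real.log (Real.log M))) := div_le_self (by positivity) h9
      _ ≤ Real.log M * (Real.log M) ^ 2 * Real.log M := by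
          apply mul_le_mul _ (e3.trans (e2.trans e1)) e4 (by positivity)
          exact mul_le_mul_of_nonneg_left (pow_le_pow_left₀ (by linarith) e1 2) (by linarith)
      _ = (Real.log M) ^ 4 := by ring
      _ ≤ _ := pow_le_pow_left₀ (by linarith) (by linarith) 4
  calc κ * ff M ≤ |κ * ff M| := le_abs_self _
    _ = |κ| * |ff M| := abs_mul _ _
    _ ≤ |κ| * M ^ (a / 2) := mul_le_mul_of_nonneg_left (e5.trans h4) (abs_nonneg _)
    _ ≤ _ := h5

theorem final (k K : ℕ) (δ ε : ℝ) (hε : 0 < ε) (hδ1 : δ ≤ 1) :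
    ∃ κ : ℝ, 0 < κ ∧ ∃ m₀ : ℕ, ∀ m : ℕ, m₀ ≤ m →
    ∀ (α : Type) (s : Finset α) (v : α → Fin k → ℤ), (∀ a ∈ s, ∀ j, 0 ≤ v a j ∧ v a j < m) →
    (∀ h : Fin k → ℤ, (∃ j, ¬ (m : ℤ) ∣ h j) →
      ‖∑ a ∈ s, Complex.exp (2 * Real.pi * Complex.I * (∑ j, h j * v a j : ℤ) / m)‖ ≤
        s.card * (m : ℝ) ^ (-δ)) →
    ∀ (u : Fin k → ℤ) (H : Fin k → ℕ), (∀ j, 0 ≤ u j) → (∀ j, u j + H j ≤ m) →
    (m : ℝ) ^ ((k : ℝ) - δ + ε) ≤ ∏ j, (H j : ℝ) →
    (m : ℝ) ^ (-ε) * (s.card * ∏ j, ((H j : ℝ) / m)) ≤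
      ((s.filter (fun a => (∀ j, u j ≤ v a j ∧ v a j < u j + H j) ∧
        Far K (κ * ff m) (v a))).card : ℝ) := by
  obtain ⟨ε', hε'⟩ : ∃ ε' : ℝ, ε' = min (ε / 2) (1 / 2) := ⟨_, rfl⟩
  have hε'0 : 0 < ε' := by rw [hε']; positivity
  have hε'1 : ε' ≤ 1 := by rw [hε']; exact (min_le_right _ _).trans (by norm_num)
  have hε'2 : ε' < ε := by
    rw [hε']
    exact lt_of_le_of_lt (min_le_left _ _) (by linarith)
  obtain ⟨κ, hκ, hcore⟩ := core k K δ ε' hε'0 hε'1 hδ1
  refine ⟨κ, hκ, ?_⟩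
  have hk1 : (0 : ℝ) < (k : ℝ) + 1 := by positivity
  have hbase : ε' / (40 * (k + 1)) < ε' / 4 := by
    apply div_lt_div_of_pos_left hε'0 (by norm_num)
    have : (0 : ℝ) ≤ k := Nat.cast_nonneg k
    linarith
  have hev : ∀ᶠ M : ℝ in atTop, ∀ m : ℕ, (m : ℝ) = M →
    ∀ (α : Type) (s : Finset α) (v : α → Fin k → ℤ), (∀ a ∈ s, ∀ j, 0 ≤ v a j ∧ v a j < m) →
    (∀ h : Fin k → ℤ, (∃ j, ¬ (m : ℤ) ∣ h j) →
      ‖∑ a ∈ s, Complex.exp (2 * Real.pi * Complex.I * (∑ j, h j * v a j : ℤ) / m)‖ ≤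
        s.card * (m : ℝ) ^ (-δ)) →
    ∀ (u : Fin k → ℤ) (H : Fin k → ℕ), (∀ j, 0 ≤ u j) → (∀ j, u j + H j ≤ m) →
    (m : ℝ) ^ ((k : ℝ) - δ + ε) ≤ ∏ j, (H j : ℝ) →
    (m : ℝ) ^ (-ε) * (s.card * ∏ j, ((H j : ℝ) / m)) ≤
      ((s.filter (fun a => (∀ j, u j ≤ v a j ∧ v a j < u j + H j) ∧
        Far K (κ * ff m) (v a))).card : ℝ) := by
    filter_upwards [hcore, ev_ff κ (ε' / (40 * (k + 1))) (by positivity),
      ev_pow (ε' / (40 * (k + 1))) (ε' / 4) 3 hbase, ev_pow (ε' / 4) ε' 6 (by linarith),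
      ev_pow ε' ε (2 ^ k) hε'2, eventually_ge_atTop (1 : ℝ)] with M g1 g2 g3 g4 g5 hM1
    intro m hmM α s v hv hE u H hu huH hV
    subst hmM
    have hm0 : (0 : ℝ) < m := by linarith
    have hmn : m ≠ 0 := by
      rintro rfl
      simp at hm0
    have : NeZero m := ⟨hmn⟩
    rcases s.eq_empty_or_nonempty with rfl | hs
    · simp
    have hHm : ∀ j, (H j : ℝ) ≤ m := fun j => by
      have h1 := huH j
      have h2 := hu j
      have h3 : H j ≤ m := by omega
      exact_mod_cast h3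
    have hHlow : ∀ j, (m : ℝ) ^ ε ≤ H j := by
      intro j
      have h1 : ∏ i, (H i : ℝ) ≤ H j * (m : ℝ) ^ ((k : ℝ) - 1) := by
        rw [← mul_prod_erase univ _ (mem_univ j)]
        apply mul_le_mul_of_nonneg_left _ (Nat.cast_nonneg _)
        calc ∏ i ∈ univ.erase j, (H i : ℝ) ≤ ∏ _i ∈ univ.erase j, (m : ℝ) :=
              prod_le_prod (fun i _ => Nat.cast_nonneg _) fun i _ => hHm i
          _ = (m : ℝ) ^ (k - 1 : ℕ) := by
              rw [prod_const, card_erase_of_mem (mem_univ j), card_univ, Fintype.card_fin]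
          _ = (m : ℝ) ^ ((k : ℝ) - 1) := by
              rw [← Real.rpow_natCast, Nat.cast_sub (by have := j.2; omega), Nat.cast_one]
      have h2 : (m : ℝ) ^ ε * (m : ℝ) ^ ((k : ℝ) - 1) ≤ H j * (m : ℝ) ^ ((k : ℝ) - 1) := by
        refine le_trans ?_ (hV.trans h1)
        rw [← Real.rpow_add hm0]
        apply Real.rpow_le_rpow_of_exponent_le hM1
        linarith
      exact le_of_mul_le_mul_right h2 (by positivity)
    -- the smaller box
    obtain ⟨U, hU⟩ : ∃ U : ℕ, U = ⌈(m : ℝ) ^ (ε' / 4)⌉₊ := ⟨_, rfl⟩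
    have hz1 : (1 : ℝ) ≤ (m : ℝ) ^ (ε' / 4) := Real.one_le_rpow hM1 (by positivity)
    have hUl : (m : ℝ) ^ (ε' / 4) ≤ U := by rw [hU]; exact Nat.le_ceil _
    have hUu : (U : ℝ) ≤ 2 * (m : ℝ) ^ (ε' / 4) := by
      have h1 : (U : ℝ) < (m : ℝ) ^ (ε' / 4) + 1 := by
        rw [hU]; exact Nat.ceil_lt_add_one (by positivity)
      linarith
    have hεm : (m : ℝ) ^ ε' ≤ (m : ℝ) ^ ε := Real.rpow_le_rpow_of_exponent_le hM1 hε'2.le
    have hUH : ∀ j, 2 * (U : ℝ) ≤ H j := fun j => by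
      have h1 := hHlow j
      linarith
    have hUH' : ∀ j, U ≤ H j := fun j => by
      have h1 := hUH j
      have h2 : (0 : ℝ) ≤ U := Nat.cast_nonneg _
      have h3 : (U : ℝ) ≤ H j := by linarith
      exact_mod_cast h3
    have hsub : ∀ j, ((H j - U : ℕ) : ℝ) = H j - U := fun j => Nat.cast_sub (hUH' j)
    have hhalf : ∀ j, (H j : ℝ) / 2 ≤ ((H j - U : ℕ) : ℝ) := fun j => by
      rw [hsub]
      have h1 := hUH j
      linarith
    have hprod2 : (∏ j, (H j : ℝ)) / 2 ^ k ≤ ∏ j, ((H j - U : ℕ) : ℝ) := by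
      calc (∏ j, (H j : ℝ)) / 2 ^ k = ∏ j, ((H j : ℝ) / 2) := by
            rw [prod_div_distrib]; simp
        _ ≤ _ := prod_le_prod (fun j _ => by positivity) fun j _ => hhalf j
    have hV' : (m : ℝ) ^ ((k : ℝ) - δ + ε') ≤ ∏ j, ((H j - U : ℕ) : ℝ) := by
      refine le_trans ?_ hprod2
      rw [le_div_iff₀ (by positivity)]
      refine le_trans ?_ hV
      rw [Real.rpow_add hm0, Real.rpow_add hm0 ((k : ℝ) - δ) ε, mul_assoc]
      apply mul_le_mul_of_nonneg_left _ (by positivity)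
      rw [mul_comm]
      exact g5
    have hE' : ∀ h : Fin k → ZMod m, h ≠ 0 →
        ‖∑ a ∈ s, (ZMod.stdAddChar (∑ j, h j * (v a j : ZMod m)) : ℂ)‖ ≤ s.card * (m : ℝ) ^ (-δ) := by
      intro h hh
      obtain ⟨j, hj⟩ := Function.ne_iff.1 hh
      have h1 := hE (fun j => ((h j).val : ℤ)) ⟨j, by
        intro hd
        apply hj
        have h2 : m ∣ (h j).val := by exact_mod_cast hd
        have h3 := Nat.eq_zero_of_dvd_of_lt h2 (ZMod.val_lt _)
        rw [ZMod.val_eq_zero] at h3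
        simpa using h3⟩
      refine le_trans (le_of_eq ?_) h1
      congr 1
      refine sum_congr rfl fun a _ => ?_
      have h4 : (∑ j, h j * (v a j : ZMod m)) = ((∑ j, ((h j).val : ℤ) * v a j : ℤ) : ZMod m) := by
        push_cast
        refine sum_congr rfl fun i _ => ?_
        rw [ZMod.natCast_zmod_val]
      rw [h4, ZMod.stdAddChar_coe]
    have h1 := g1 m rfl α s v hs hv hE' (fun j => u j + U) (fun j => H j - U)
      (fun j => by have := hu j; positivity)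
      (fun j => by have h1 := huH j; have h2 := hUH' j; push_cast [Nat.cast_sub (hUH' j)]; linarith) hV'
    have h2 : ((inBox s v (fun j => u j + U) (fun j => H j - U)).filter (fun a => GoodM K (κ * ff m)
        ((m : ℝ) ^ (ε' / (40 * (k + 1)))) (v a))) ⊆ s.filter (fun a =>
          (∀ j, u j ≤ v a j ∧ v a j < u j + H j) ∧ Far K (κ * ff m) (v a)) := by
      intro a ha
      unfold inBox at ha
      rw [mem_filter, mem_filter] at ha
      obtain ⟨⟨ha1, ha2⟩, ha3⟩ := ha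
      rw [mem_filter]
      refine ⟨ha1, fun j => ?_, ?_⟩
      · have h3 := ha2 j
        have h4 := hUH' j
        have h5 : ((H j - U : ℕ) : ℤ) = H j - U := Nat.cast_sub (hUH' j)
        simp only [h5] at h3
        constructor <;> omega
      · refine far_of_good K _ _ U (v a) (hz1.trans hUl) (fun j => ?_) ?_ ha3
        · have h3 := (ha2 j).1
          have h4 := hu j
          have h5 : (U : ℤ) ≤ v a j := by linarith
          exact_mod_cast h5
        · linarith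
    have h3 : (((inBox s v (fun j => u j + U) (fun j => H j - U)).filter (fun a => GoodM K (κ * ff m)
        ((m : ℝ) ^ (ε' / (40 * (k + 1)))) (v a))).card : ℝ) ≤ ((s.filter (fun a =>
          (∀ j, u j ≤ v a j ∧ v a j < u j + H j) ∧ Far K (κ * ff m) (v a))).card : ℝ) := by
      exact_mod_cast card_le_card h2
    refine le_trans ?_ (h1.trans h3)
    -- comparison of the main terms
    have h4 : (∏ j, ((H j : ℝ) / m)) / 2 ^ k ≤ ∏ j, (((H j - U : ℕ) : ℝ) / m) := by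
      rw [prod_div_distrib, prod_div_distrib, div_right_comm]
      apply div_le_div_of_nonneg_right hprod2
      positivity
    have h5 : (m : ℝ) ^ (-ε) ≤ (m : ℝ) ^ (-ε') / 2 ^ k := by
      rw [le_div_iff₀ (by positivity), Real.rpow_neg hm0.le, Real.rpow_neg hm0.le,
        inv_mul_le_iff₀ (by positivity)]
      rw [← div_eq_mul_inv, le_div_iff₀ (by positivity)]
      exact g5
    have h6 : 0 ≤ ∏ j, ((H j : ℝ) / m) := prod_nonneg fun j _ => by positivity
    calc (m : ℝ) ^ (-ε) * (s.card * ∏ j, ((H j : ℝ) / m)) ≤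
          ((m : ℝ) ^ (-ε') / 2 ^ k) * (s.card * ∏ j, ((H j : ℝ) / m)) :=
          mul_le_mul_of_nonneg_right h5 (by positivity)
      _ = (s.card * ((∏ j, ((H j : ℝ) / m)) / 2 ^ k)) * (m : ℝ) ^ (-ε') := by ring
      _ ≤ _ := by
          apply mul_le_mul_of_nonneg_right _ (by positivity)
          exact mul_le_mul_of_nonneg_left h4 (Nat.cast_nonneg _)
  obtain ⟨M₀, hM₀⟩ := eventually_atTop.1 hev
  exact ⟨⌈M₀⌉₊, fun m hm => hM₀ m ((Nat.le_ceil M₀).trans (by exact_mod_cast hm)) m rfl⟩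

end Pool.Agent.W2helper60.RG
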