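import Mathlib

set_option autoImplicit false

/-! # Finite Fourier analysis modulo `m` for integers in a progression inside an interval

The lemmas `geom`, `harm`, `sumgeom` are taken from `Pool.Agent.H442R2.KF.Inc`. -/

namespace Pool.Agent.W2helper60.RG

open Finset

/-- a progression in an interval -/
lemma prog (R : ℕ) (hR : 0 < R) (r A B : ℤ) (hAB : A ≤ B) :
    ∃ (m₀ : ℤ) (H : ℕ), (H : ℝ) ≤ ((B : ℝ) - A) / R + 1 ∧
      (Icc A B).filter (fun m : ℤ => m ≡ r [ZMOD R]) =
        (range H).image (fun k : ℕ => m₀ + R * k) := by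
  have hR' : (0 : ℤ) < R := by exact_mod_cast hR
  have hRr : (0 : ℝ) < R := by exact_mod_cast hR
  set m₀ : ℤ := A + (r - A) % R with hm₀
  have h0 : 0 ≤ (r - A) % R := Int.emod_nonneg _ hR'.ne'
  have h1 : (r - A) % R < R := Int.emod_lt_of_pos _ hR'
  have hmod : (R : ℤ) ∣ r - m₀ := by
    have h2 : (R : ℤ) ∣ (r - A) - (r - A) % R := Int.dvd_self_sub_emod
    have h3 : r - m₀ = (r - A) - (r - A) % R := by rw [hm₀]; ring
    rw [h3]; exact h2
  refine ⟨m₀, if m₀ ≤ B then ((B - m₀) / R).toNat + 1 else 0, ?_, ?_⟩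
  · split_ifs with hB
    · have h4 : 0 ≤ (B - m₀) / R := Int.ediv_nonneg (by omega) hR'.le
      have h5 : (((B - m₀) / R).toNat : ℤ) = (B - m₀) / R := Int.toNat_of_nonneg h4
      have h6 : ((((B - m₀) / R).toNat : ℕ) : ℝ) ≤ ((B : ℝ) - A) / R := by
        rw [le_div_iff₀ hRr]
        have h7 : (B - m₀) / R * R ≤ B - m₀ := Int.ediv_mul_le _ hR'.ne'
        have h8 : (((B - m₀) / R).toNat : ℤ) * R ≤ B - A := by rw [h5]; omega
        exact_mod_cast h8
      push_cast
      linarith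
    · have : 0 ≤ ((B : ℝ) - A) / R := by
        apply div_nonneg _ hRr.le
        have : (A : ℝ) ≤ B := by exact_mod_cast hAB
        linarith
      push_cast
      linarith
  · ext m
    simp only [mem_filter, mem_Icc, mem_image, mem_range]
    constructor
    · rintro ⟨⟨hA, hB⟩, hm⟩
      have h2 : (R : ℤ) ∣ m - m₀ := by
        have h3 : (R : ℤ) ∣ r - m := hm.dvd
        have := dvd_sub hmod h3
        have h4 : r - m₀ - (r - m) = m - m₀ := by ring
        rwa [h4] at this
      obtain ⟨t, ht⟩ := h2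
      have ht0 : 0 ≤ t := by
        by_contra hneg
        push Not at hneg
        have : (R : ℤ) * t ≤ R * (-1) := by
          apply mul_le_mul_of_nonneg_left _ hR'.le
          omega
        omega
      have hmB : m₀ ≤ B := by
        have : 0 ≤ (R : ℤ) * t := mul_nonneg hR'.le ht0
        omega
      refine ⟨t.toNat, ?_, ?_⟩
      · rw [if_pos hmB]
        have h5 : t ≤ (B - m₀) / R := by
          rw [Int.le_ediv_iff_mul_le hR']
          linarith [mul_comm (R : ℤ) t]
        have h6 : t.toNat ≤ ((B - m₀) / R).toNat := Int.toNat_le_toNat h5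
        omega
      · rw [Int.toNat_of_nonneg ht0]
        linarith
    · rintro ⟨k, hk, rfl⟩
      split_ifs at hk with hB
      · have h4 : 0 ≤ (B - m₀) / R := Int.ediv_nonneg (by omega) hR'.le
        have h5 : (k : ℤ) ≤ (B - m₀) / R := by
          have : k ≤ ((B - m₀) / R).toNat := by omega
          calc (k : ℤ) ≤ (((B - m₀) / R).toNat : ℤ) := by exact_mod_cast this
            _ = _ := Int.toNat_of_nonneg h4
        rw [Int.le_ediv_iff_mul_le hR'] at h5
        have h6 : (0 : ℤ) ≤ (R : ℤ) * k := by positivity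
        refine ⟨⟨by omega, by linarith [mul_comm (R : ℤ) k]⟩, ?_⟩
        apply Int.ModEq.symm
        apply (Int.modEq_iff_dvd).2
        have h7 : m₀ + (R : ℤ) * k - r = -(r - m₀) + R * k := by ring
        rw [h7]
        exact dvd_add (hmod.neg_right) (dvd_mul_right _ _)
      · omega

/-- the geometric sum -/
lemma geom (q : ℕ) [NeZero q] (w : ZMod q) (hw : w ≠ 0) (H : ℕ) :
    ‖∑ k ∈ range H, ZMod.stdAddChar (w * (k : ZMod q))‖ ≤
      (q : ℝ) / 2 * (1 / (w.val : ℝ) + 1 / ((q : ℝ) - w.val)) := by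
  have hq : (0 : ℝ) < q := by exact_mod_cast Nat.pos_of_ne_zero (NeZero.ne q)
  have hv0 : 0 < w.val := by
    rcases Nat.eq_zero_or_pos w.val with h | h
    · exact absurd ((ZMod.val_eq_zero w).1 h) hw
    · exact h
  have hvq : w.val < q := ZMod.val_lt w
  have hv0' : (0 : ℝ) < w.val := by exact_mod_cast hv0
  have hvq' : (w.val : ℝ) < q := by exact_mod_cast hvq
  set z : ℂ := ZMod.stdAddChar w with hz
  have hpow : ∀ k : ℕ, ZMod.stdAddChar (w * (k : ZMod q)) = z ^ k := by
    intro k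
    rw [hz, ← AddChar.map_nsmul_eq_pow, nsmul_eq_mul, mul_comm]
  have hnz : ‖z‖ = 1 := by
    rw [hz]; exact AddChar.norm_apply _ _
  have hz1 : ‖z - 1‖ = 2 * Real.sin (Real.pi * (w.val : ℝ) / q) := by
    have h1 : z = Complex.exp (Complex.I * ((2 * Real.pi * (w.val : ℝ) / q : ℝ) : ℂ)) := by
      have h2 : w = ((w.val : ℤ) : ZMod q) := by
        rw [Int.cast_natCast, ZMod.natCast_zmod_val]
      rw [hz]
      conv_lhs => rw [h2]
      rw [ZMod.stdAddChar_coe]
      congr 1
      push_cast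
      ring
    rw [h1, Complex.norm_exp_I_mul_ofReal_sub_one, Real.norm_eq_abs]
    have h3 : 2 * Real.pi * (w.val : ℝ) / q / 2 = Real.pi * (w.val : ℝ) / q := by ring
    rw [h3, abs_of_nonneg]
    have : 0 ≤ Real.sin (Real.pi * (w.val : ℝ) / q) := by
      apply Real.sin_nonneg_of_nonneg_of_le_pi
      · positivity
      · rw [div_le_iff₀ hq]
        exact mul_le_mul_of_nonneg_left hvq'.le Real.pi_pos.le
    linarith
  -- lower bound for the sine
  set m : ℝ := min (w.val : ℝ) ((q : ℝ) - w.val) with hm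
  have hm0 : 0 < m := lt_min hv0' (by linarith)
  have hsin : 2 * m / q ≤ Real.sin (Real.pi * (w.val : ℝ) / q) := by
    rcases le_total (w.val : ℝ) ((q : ℝ) - w.val) with h | h
    · have h1 : m = w.val := min_eq_left h
      have := Real.mul_le_sin (x := Real.pi * (w.val : ℝ) / q) (by positivity) (by
        rw [div_le_div_iff₀ hq (by norm_num)]
        nlinarith [Real.pi_pos])
      rw [h1]
      calc 2 * (w.val : ℝ) / q = 2 / Real.pi * (Real.pi * (w.val : ℝ) / q) := by
            field_simp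
        _ ≤ _ := this
    · have h1 : m = (q : ℝ) - w.val := min_eq_right h
      have h2 : Real.sin (Real.pi * (w.val : ℝ) / q) =
          Real.sin (Real.pi * ((q : ℝ) - w.val) / q) := by
        rw [← Real.sin_pi_sub]
        congr 1
        field_simp
      have := Real.mul_le_sin (x := Real.pi * ((q : ℝ) - w.val) / q)
        (by apply div_nonneg _ hq.le; apply mul_nonneg Real.pi_pos.le; linarith) (by
        rw [div_le_div_iff₀ hq (by norm_num)]
        nlinarith [Real.pi_pos])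
      rw [h1, h2]
      calc 2 * ((q : ℝ) - w.val) / q = 2 / Real.pi * (Real.pi * ((q : ℝ) - w.val) / q) := by
            field_simp
        _ ≤ _ := this
  have hne : z ≠ 1 := by
    intro h
    rw [h, sub_self, norm_zero] at hz1
    have : 0 < 2 * m / q := by positivity
    linarith
  simp_rw [hpow]
  rw [geom_sum_eq hne, norm_div]
  have hnum : ‖z ^ H - 1‖ ≤ 2 := by
    calc ‖z ^ H - 1‖ ≤ ‖z ^ H‖ + ‖(1 : ℂ)‖ := norm_sub_le _ _
      _ = 2 := by rw [norm_pow, hnz, one_pow, norm_one]; norm_num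
  have hden : 4 * m / q ≤ ‖z - 1‖ := by
    rw [hz1]
    calc 4 * m / q = 2 * (2 * m / q) := by ring
      _ ≤ _ := by linarith
  have hmin : 1 / m ≤ 1 / (w.val : ℝ) + 1 / ((q : ℝ) - w.val) := by
    have hp : 0 < (q : ℝ) - w.val := by linarith
    rcases le_total (w.val : ℝ) ((q : ℝ) - w.val) with h | h
    · rw [hm, min_eq_left h]
      have := one_div_pos.2 hp
      linarith
    · rw [hm, min_eq_right h]
      have := one_div_pos.2 hv0'
      linarith
  calc ‖z ^ H - 1‖ / ‖z - 1‖ ≤ 2 / (4 * m / q) := by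
        apply div_le_div₀ (by norm_num) hnum (by positivity) hden
    _ = (q : ℝ) / 2 * (1 / m) := by field_simp; ring
    _ ≤ _ := by
        apply mul_le_mul_of_nonneg_left hmin (by positivity)

lemma harm (q : ℕ) :
    ∑ v ∈ Ico 1 q, (1 / (v : ℝ) + 1 / ((q : ℝ) - v)) ≤ 2 * (1 + Real.log q) := by
  rw [sum_add_distrib]
  have h1 : ∑ v ∈ Ico 1 q, 1 / ((q : ℝ) - v) = ∑ v ∈ Ico 1 q, 1 / (v : ℝ) := by
    refine sum_bij' (fun v _ => q - v) (fun v _ => q - v) ?_ ?_ ?_ ?_ ?_
    · intro v hv; rw [mem_Ico] at *; omega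
    · intro v hv; rw [mem_Ico] at *; omega
    · intro v hv; rw [mem_Ico] at *; show q - (q - v) = v; omega
    · intro v hv; rw [mem_Ico] at *; show q - (q - v) = v; omega
    · intro v hv
      rw [mem_Ico] at hv
      rw [Nat.cast_sub hv.2.le]
  rw [h1]
  have h2 : ∑ v ∈ Ico 1 q, 1 / (v : ℝ) ≤ 1 + Real.log q := by
    have h3 : ∑ v ∈ Ico 1 q, 1 / (v : ℝ) ≤ (harmonic q : ℝ) := by
      rw [harmonic_eq_sum_Icc]
      push_cast
      rw [show (∑ v ∈ Ico 1 q, 1 / (v : ℝ)) = ∑ v ∈ Ico 1 q, ((v : ℝ))⁻¹ from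
        sum_congr rfl (fun v _ => one_div _)]
      apply sum_le_sum_of_subset_of_nonneg
      · intro v hv; rw [mem_Ico] at hv; rw [mem_Icc]; omega
      · intro v _ _; positivity
    exact h3.trans (harmonic_le_one_add_log q)
  linarith

lemma sumgeom (q : ℕ) [NeZero q] (H : ℕ) :
    ∑ w : ZMod q, ‖∑ k ∈ range H, ZMod.stdAddChar (w * (k : ZMod q))‖ ≤
      H + q * (1 + Real.log q) := by
  have hq0 : 0 < q := Nat.pos_of_ne_zero (NeZero.ne q)
  have hq : (0 : ℝ) < q := by exact_mod_cast hq0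
  rw [← add_sum_erase univ _ (mem_univ (0 : ZMod q))]
  apply add_le_add
  · simp
  · have h1 : ∑ w ∈ univ.erase (0 : ZMod q), ‖∑ k ∈ range H, ZMod.stdAddChar (w * (k : ZMod q))‖ ≤
        ∑ w ∈ univ.erase (0 : ZMod q),
          (q : ℝ) / 2 * (1 / (w.val : ℝ) + 1 / ((q : ℝ) - w.val)) := by
      apply sum_le_sum
      intro w hw
      exact geom q w (ne_of_mem_erase hw) H
    refine h1.trans ?_
    rw [← mul_sum]
    have h2 : ∑ w ∈ univ.erase (0 : ZMod q), (1 / (w.val : ℝ) + 1 / ((q : ℝ) - w.val)) =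
        ∑ v ∈ Ico 1 q, (1 / (v : ℝ) + 1 / ((q : ℝ) - v)) := by
      refine sum_bij' (fun w _ => w.val) (fun v _ => (v : ZMod q)) ?_ ?_ ?_ ?_ ?_
      · intro w hw
        have hw0 := ne_of_mem_erase hw
        rw [mem_Ico]
        refine ⟨?_, ZMod.val_lt w⟩
        rcases Nat.eq_zero_or_pos w.val with h | h
        · exact absurd ((ZMod.val_eq_zero w).1 h) hw0
        · exact h
      · intro v hv
        rw [mem_Ico] at hv
        rw [mem_erase]
        refine ⟨?_, mem_univ _⟩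
        intro h
        rw [ZMod.natCast_eq_zero_iff] at h
        have := Nat.le_of_dvd (by omega) h
        omega
      · intro w hw
        exact ZMod.natCast_zmod_val w
      · intro v hv
        rw [mem_Ico] at hv
        exact ZMod.val_natCast_of_lt hv.2
      · intro w hw
        rfl
    rw [h2]
    calc (q : ℝ) / 2 * ∑ v ∈ Ico 1 q, (1 / (v : ℝ) + 1 / ((q : ℝ) - v)) ≤
          (q : ℝ) / 2 * (2 * (1 + Real.log q)) :=
          mul_le_mul_of_nonneg_left (harm q) (by positivity)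
      _ = _ := by ring

lemma char_sum {β : Type*} {m : ℕ} [NeZero m] (s : Finset β) (f : β → ZMod m) :
    (ZMod.stdAddChar (∑ j ∈ s, f j) : ℂ) = ∏ j ∈ s, ZMod.stdAddChar (f j) := by
  classical
  induction s using Finset.induction_on with
  | empty => simp
  | insert a s ha ih => rw [Finset.sum_insert ha, Finset.prod_insert ha, AddChar.map_add_eq_mul, ih]

/-- the Fourier coefficient modulo `m` of a finite set of integers -/
noncomputable def cf (m : ℕ) [NeZero m] (A : Finset ℤ) (w : ZMod m) : ℂ :=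
  (m : ℂ)⁻¹ * ∑ x ∈ A, ZMod.stdAddChar (-(w * (x : ZMod m)))

lemma cf_zero (m : ℕ) [NeZero m] (A : Finset ℤ) : cf m A 0 = (((A.card : ℝ) / m : ℝ) : ℂ) := by
  unfold cf
  simp only [zero_mul, neg_zero, AddChar.map_zero_eq_one, sum_const, nsmul_eq_mul, mul_one]
  push_cast
  ring

lemma cf_expand (m : ℕ) [NeZero m] (A : Finset ℤ) (hA : ∀ x ∈ A, 0 ≤ x ∧ x < m) (y : ℤ)
    (hy0 : 0 ≤ y) (hy : y < m) :
    ∑ w : ZMod m, cf m A w * ZMod.stdAddChar (w * (y : ZMod m)) = if y ∈ A then 1 else 0 := by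
  have hm0 : (m : ℂ) ≠ 0 := by exact_mod_cast NeZero.ne m
  have h1 : ∀ w : ZMod m, cf m A w * ZMod.stdAddChar (w * (y : ZMod m)) =
      (m : ℂ)⁻¹ * ∑ x ∈ A, ZMod.stdAddChar (w * ((y - x : ℤ) : ZMod m)) := by
    intro w
    unfold cf
    rw [mul_assoc, sum_mul]
    congr 1
    refine sum_congr rfl fun x _ => ?_
    rw [← AddChar.map_add_eq_mul]
    congr 1
    push_cast
    ring
  rw [sum_congr rfl fun w _ => h1 w, ← mul_sum, sum_comm]
  have h2 : ∀ x ∈ A, ∑ w : ZMod m, (ZMod.stdAddChar (w * ((y - x : ℤ) : ZMod m)) : ℂ) =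
      if x = y then (m : ℂ) else 0 := by
    intro x hx
    have h4 := AddChar.sum_mulShift (R' := ℂ) ((y - x : ℤ) : ZMod m) (ZMod.isPrimitive_stdAddChar m)
    rw [h4, ZMod.card]
    have h3 : ((y - x : ℤ) : ZMod m) = 0 ↔ x = y := by
      rw [ZMod.intCast_zmod_eq_zero_iff_dvd]
      constructor
      · intro hd
        have h5 := hA x hx
        have h6 := Int.eq_zero_of_abs_lt_dvd hd (by
          rw [abs_lt]
          constructor <;> linarith [h5.1, h5.2])
        linarith
      · rintro rfl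
        simp
    by_cases hxy : x = y
    · rw [if_pos hxy, if_pos (h3.2 hxy)]
    · rw [if_neg hxy, if_neg fun h => hxy (h3.1 h)]
      simp
  rw [sum_congr rfl h2, sum_ite_eq']
  split_ifs
  · exact inv_mul_cancel₀ hm0
  · simp

/-- the number of the members of a family in a product set -/
theorem count_box {α : Type*} {k : ℕ} (m : ℕ) [NeZero m] (s : Finset α) (v : α → Fin k → ℤ)
    (hv : ∀ a ∈ s, ∀ j, 0 ≤ v a j ∧ v a j < m) (E : ℝ)
    (hE : ∀ h : Fin k → ZMod m, h ≠ 0 →
      ‖∑ a ∈ s, (ZMod.stdAddChar (∑ j, h j * (v a j : ZMod m)) : ℂ)‖ ≤ E) (hE0 : 0 ≤ E)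
    (A : Fin k → Finset ℤ) (hA : ∀ j, ∀ x ∈ A j, 0 ≤ x ∧ x < m) :
    |((s.filter (fun a => ∀ j, v a j ∈ A j)).card : ℝ) - s.card * ∏ j, ((A j).card / m : ℝ)| ≤
      E * ∏ j, ∑ w : ZMod m, ‖cf m (A j) w‖ := by
  classical
  have h1 : ((((s.filter (fun a => ∀ j, v a j ∈ A j)).card : ℝ)) : ℂ) =
      ∑ h : Fin k → ZMod m, (∏ j, cf m (A j) (h j)) *
        ∑ a ∈ s, ZMod.stdAddChar (∑ j, h j * (v a j : ZMod m)) := by
    have h2 : ∀ a ∈ s, (if ∀ j, v a j ∈ A j then (1 : ℂ) else 0) =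
        ∑ h : Fin k → ZMod m, (∏ j, cf m (A j) (h j)) *
          ZMod.stdAddChar (∑ j, h j * (v a j : ZMod m)) := by
      intro a ha
      have h3 : (if ∀ j, v a j ∈ A j then (1 : ℂ) else 0) =
          ∏ j, (if v a j ∈ A j then (1 : ℂ) else 0) := by
        by_cases h : ∀ j, v a j ∈ A j
        · rw [if_pos h, prod_congr rfl fun j _ => if_pos (h j), prod_const_one]
        · rw [if_neg h]
          push Not at h
          obtain ⟨j, hj⟩ := h
          exact (prod_eq_zero (mem_univ j) (if_neg hj)).symm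
      rw [h3, prod_congr rfl fun j _ => (cf_expand m (A j) (hA j) (v a j) (hv a ha j).1
        (hv a ha j).2).symm, Finset.prod_univ_sum, Fintype.piFinset_univ]
      refine sum_congr rfl fun h _ => ?_
      rw [prod_mul_distrib]
      congr 1
      rw [char_sum]
    rw [card_filter]
    have h2' : (((∑ a ∈ s, if ∀ j, v a j ∈ A j then 1 else 0 : ℕ) : ℝ) : ℂ) =
        ∑ a ∈ s, (if ∀ j, v a j ∈ A j then (1 : ℂ) else 0) := by
      push_cast
      exact sum_congr rfl fun a _ => by split_ifs <;> simp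
    rw [h2', sum_congr rfl h2, sum_comm]
    refine sum_congr rfl fun h _ => ?_
    rw [mul_sum]
  have h0 : (∏ j : Fin k, cf m (A j) ((0 : Fin k → ZMod m) j)) *
      ∑ a ∈ s, (ZMod.stdAddChar (∑ j, (0 : Fin k → ZMod m) j * (v a j : ZMod m)) : ℂ) =
      (((s.card : ℝ) * ∏ j, ((A j).card / m : ℝ) : ℝ) : ℂ) := by
    simp only [Pi.zero_apply, zero_mul, sum_const_zero, AddChar.map_zero_eq_one, sum_const,
      nsmul_eq_mul, mul_one]
    rw [prod_congr rfl fun j _ => cf_zero m (A j)]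
    push_cast
    ring
  rw [← add_sum_erase univ _ (mem_univ (0 : Fin k → ZMod m)), h0] at h1
  have h4 : (((((s.filter (fun a => ∀ j, v a j ∈ A j)).card : ℝ)) -
      s.card * ∏ j, ((A j).card / m : ℝ) : ℝ) : ℂ) =
      ∑ h ∈ univ.erase (0 : Fin k → ZMod m), (∏ j, cf m (A j) (h j)) *
        ∑ a ∈ s, ZMod.stdAddChar (∑ j, h j * (v a j : ZMod m)) := by
    rw [Complex.ofReal_sub, h1]
    ring
  rw [← Real.norm_eq_abs, ← Complex.norm_real, h4]
  calc _ ≤ ∑ h ∈ univ.erase (0 : Fin k → ZMod m), ‖(∏ j, cf m (A j) (h j)) *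
        ∑ a ∈ s, (ZMod.stdAddChar (∑ j, h j * (v a j : ZMod m)) : ℂ)‖ := norm_sum_le _ _
    _ ≤ ∑ h ∈ univ.erase (0 : Fin k → ZMod m), (∏ j, ‖cf m (A j) (h j)‖) * E := by
        refine sum_le_sum fun h hh => ?_
        rw [norm_mul, norm_prod]
        exact mul_le_mul_of_nonneg_left (hE h (ne_of_mem_erase hh))
          (prod_nonneg fun _ _ => norm_nonneg _)
    _ ≤ ∑ h : Fin k → ZMod m, (∏ j, ‖cf m (A j) (h j)‖) * E :=
        sum_le_sum_of_subset_of_nonneg (erase_subset _ _) fun _ _ _ =>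
          mul_nonneg (prod_nonneg fun _ _ => norm_nonneg _) hE0
    _ = E * ∏ j, ∑ w : ZMod m, ‖cf m (A j) w‖ := by
        rw [← sum_mul, mul_comm, Finset.prod_univ_sum, Fintype.piFinset_univ]

/-- multiplication by `q` is at most `q` to one -/
lemma fiber (m q : ℕ) [NeZero m] (hq : 0 < q) (f : ZMod m → ℝ) (hf : ∀ w, 0 ≤ f w) :
    ∑ w : ZMod m, f (w * (q : ZMod m)) ≤ q * ∑ w : ZMod m, f w := by
  classical
  have hm0 : 0 < m := Nat.pos_of_ne_zero (NeZero.ne m)
  have h1 : ∑ w : ZMod m, f (w * (q : ZMod m)) = ∑ c : ZMod m,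
      ((univ.filter (fun w : ZMod m => w * (q : ZMod m) = c)).card : ℝ) * f c := by
    rw [← Finset.sum_fiberwise univ (fun w : ZMod m => w * (q : ZMod m))]
    refine sum_congr rfl fun c _ => ?_
    rw [sum_congr rfl (g := fun _ => f c) fun w hw => by rw [(mem_filter.1 hw).2], sum_const,
      nsmul_eq_mul]
  have h2 : ∀ c : ZMod m, ((univ.filter (fun w : ZMod m => w * (q : ZMod m) = c)).card : ℝ) ≤ q := by
    intro c
    have h3 : (univ.filter (fun w : ZMod m => w * (q : ZMod m) = c)).card ≤ (range q).card := by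
      refine card_le_card_of_injOn (fun w => w.val * q / m) ?_ ?_
      · intro w _
        simp only [coe_range, Set.mem_Iio]
        rw [Nat.div_lt_iff_lt_mul hm0, mul_comm q m]
        exact Nat.mul_lt_mul_of_pos_right (ZMod.val_lt w) hq
      · intro w hw w' hw' hww
        simp only [coe_filter, mem_univ, true_and, Set.mem_setOf_eq] at hw hw'
        have e1 : ∀ x : ZMod m, x * (q : ZMod m) = c → (x.val * q) % m = c.val := by
          intro x hx
          rw [← hx, ZMod.val_mul, ZMod.val_natCast, Nat.mul_mod_mod]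
        have e2 := Nat.div_add_mod (w.val * q) m
        have e3 := Nat.div_add_mod (w'.val * q) m
        rw [e1 w hw] at e2
        rw [e1 w' hw'] at e3
        simp only at hww
        rw [hww] at e2
        have e4 : w.val * q = w'.val * q := e2.symm.trans e3
        exact ZMod.val_injective m (Nat.eq_of_mul_eq_mul_right hq e4)
    rw [card_range] at h3
    exact_mod_cast h3
  rw [h1, mul_sum]
  exact sum_le_sum fun c _ => mul_le_mul_of_nonneg_right (h2 c) (hf c)

/-- the sum of the Fourier coefficients of a progression in an interval -/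
lemma l1_prog (m q : ℕ) [NeZero m] (hq : 0 < q) (r u : ℤ) (H : ℕ) (hH : H ≤ m) :
    ∑ w : ZMod m, ‖cf m ((Ico u (u + H)).filter (fun x => x ≡ r [ZMOD q])) w‖ ≤
      q * (2 + Real.log m) := by
  classical
  have hm0 : 0 < m := Nat.pos_of_ne_zero (NeZero.ne m)
  have hm1 : (1 : ℝ) ≤ m := by exact_mod_cast hm0
  have hq1 : (1 : ℝ) ≤ q := by exact_mod_cast hq
  have hlog : 0 ≤ Real.log m := Real.log_nonneg hm1
  rcases Nat.eq_zero_or_pos H with rfl | hH0
  · have h1 : (Ico u (u + ((0 : ℕ) : ℤ))).filter (fun x => x ≡ r [ZMOD q]) = ∅ := by simp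
    rw [h1]
    simp only [cf, sum_empty, mul_zero, norm_zero, sum_const_zero]
    positivity
  · obtain ⟨m₀, N, hN, hset⟩ := prog q hq r u (u + H - 1) (by omega)
    have h1 : (Ico u (u + (H : ℤ))) = Icc u (u + H - 1) := by
      ext x
      simp only [mem_Ico, mem_Icc]
      omega
    rw [h1, hset]
    have hH1 : (1 : ℝ) ≤ H := by exact_mod_cast hH0
    have hNm : (N : ℝ) ≤ m := by
      have h2 : ((u + H - 1 : ℤ) : ℝ) - (u : ℝ) = H - 1 := by push_cast; ring
      rw [h2] at hN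
      have h3 : ((H : ℝ) - 1) / q ≤ H - 1 := div_le_self (by linarith) hq1
      have h4 : (H : ℝ) ≤ m := by exact_mod_cast hH
      linarith
    have h2 : ∀ w : ZMod m, ‖cf m ((range N).image (fun k : ℕ => m₀ + (q : ℤ) * (k : ℤ))) w‖ =
        (m : ℝ)⁻¹ * ‖∑ k ∈ range N, (ZMod.stdAddChar (((-w) * (q : ZMod m)) * (k : ZMod m)) : ℂ)‖ := by
      intro w
      unfold cf
      rw [norm_mul, norm_inv, Complex.norm_natCast]
      congr 1
      rw [sum_image (by
        intro a _ b _ hab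
        have hq' : (q : ℤ) ≠ 0 := by exact_mod_cast hq.ne'
        have h3 : (q : ℤ) * (a : ℤ) = q * b := by
          simp only at hab
          linarith
        exact_mod_cast mul_left_cancel₀ hq' h3)]
      have h4 : ∀ k ∈ range N, (ZMod.stdAddChar (-(w * ((m₀ + (q : ℤ) * (k : ℤ) : ℤ) : ZMod m))) : ℂ) =
          ZMod.stdAddChar (-(w * (m₀ : ZMod m))) *
            ZMod.stdAddChar (((-w) * (q : ZMod m)) * (k : ZMod m)) := by
        intro k _
        rw [← AddChar.map_add_eq_mul]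
        congr 1
        push_cast
        ring
      rw [sum_congr rfl h4, ← mul_sum, norm_mul, AddChar.norm_apply, one_mul]
    rw [sum_congr rfl fun w _ => h2 w, ← mul_sum]
    have h5 : ∑ w : ZMod m, ‖∑ k ∈ range N,
          (ZMod.stdAddChar (((-w) * (q : ZMod m)) * (k : ZMod m)) : ℂ)‖ ≤
        q * (N + m * (1 + Real.log m)) := by
      have h6 : ∑ w : ZMod m, ‖∑ k ∈ range N,
          (ZMod.stdAddChar (((-w) * (q : ZMod m)) * (k : ZMod m)) : ℂ)‖ =
          ∑ w : ZMod m, ‖∑ k ∈ range N,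
          (ZMod.stdAddChar ((w * (q : ZMod m)) * (k : ZMod m)) : ℂ)‖ :=
        Fintype.sum_equiv (Equiv.neg (ZMod m)) _ _ fun w => rfl
      rw [h6]
      refine (fiber m q hq (fun w => ‖∑ k ∈ range N,
          (ZMod.stdAddChar (w * (k : ZMod m)) : ℂ)‖) fun _ => norm_nonneg _).trans ?_
      exact mul_le_mul_of_nonneg_left (sumgeom m N) (by positivity)
    have hmr : (0 : ℝ) < m := by linarith
    calc (m : ℝ)⁻¹ * _ ≤ (m : ℝ)⁻¹ * (q * (N + m * (1 + Real.log m))) :=
          mul_le_mul_of_nonneg_left h5 (by positivity)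
      _ ≤ (m : ℝ)⁻¹ * (q * (m + m * (1 + Real.log m))) := by gcongr
      _ = _ := by field_simp; ring

/-- the number of the members of a progression in an interval -/
lemma card_prog (q : ℕ) (hq : 0 < q) (r u : ℤ) (H : ℕ) :
    |(((Ico u (u + H)).filter (fun x => x ≡ r [ZMOD q])).card : ℝ) - H / q| ≤ 1 := by
  have hq0 : (0 : ℤ) < q := by exact_mod_cast hq
  have hqQ : (0 : ℚ) < q := by exact_mod_cast hq
  have h1 := Int.Ico_filter_modEq_card u (u + H) hq0 r
  have h2 : (0 : ℚ) ≤ (H : ℚ) / q := by positivity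
  have h3 : ((u + H : ℤ) - r : ℚ) / ((q : ℤ) : ℚ) = (u - r : ℚ) / ((q : ℤ) : ℚ) + H / q := by
    push_cast
    field_simp
    ring
  obtain ⟨c1, hc1⟩ : ∃ c1, c1 = ⌈(u - r : ℚ) / ((q : ℤ) : ℚ)⌉ := ⟨_, rfl⟩
  obtain ⟨c2, hc2⟩ : ∃ c2, c2 = ⌈((u + H : ℤ) - r : ℚ) / ((q : ℤ) : ℚ)⌉ := ⟨_, rfl⟩
  have b1 : (u - r : ℚ) / ((q : ℤ) : ℚ) ≤ c1 := by rw [hc1]; exact Int.le_ceil _
  have b2 : (c1 : ℚ) < (u - r : ℚ) / ((q : ℤ) : ℚ) + 1 := by rw [hc1]; exact Int.ceil_lt_add_one _
  have b3 : ((u + H : ℤ) - r : ℚ) / ((q : ℤ) : ℚ) ≤ c2 := by rw [hc2]; exact Int.le_ceil _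
  have b4 : (c2 : ℚ) < ((u + H : ℤ) - r : ℚ) / ((q : ℤ) : ℚ) + 1 := by
    rw [hc2]; exact Int.ceil_lt_add_one _
  rw [h3] at b3 b4
  have h4 : (((Ico u (u + H)).filter (fun x => x ≡ r [ZMOD q])).card : ℤ) = max (c2 - c1) 0 := by
    rw [h1, hc1, hc2]
  have h5 : |((((Ico u (u + H)).filter (fun x => x ≡ r [ZMOD q])).card : ℤ) : ℚ) - H / q| ≤ 1 := by
    rw [h4, abs_le]
    push_cast
    rcases le_total ((c2 : ℚ) - c1) 0 with h | h
    · rw [max_eq_right h]
      constructor <;> linarith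
    · rw [max_eq_left h]
      constructor <;> linarith
  have h6 : ((|((((Ico u (u + H)).filter (fun x => x ≡ r [ZMOD q])).card : ℤ) : ℚ) - H / q| : ℚ) : ℝ) ≤ 1 := by
    exact_mod_cast h5
  push_cast at h6
  exact h6

end Pool.Agent.W2helper60.RG
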