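import Pool.Agent.N542.PT.Gen
import Pool.Agent.Y837.SV.Mon

set_option autoImplicit false
set_option linter.unusedSectionVars false
set_option linter.unusedVariables false

/-! # The criterion for all the monomials with coprime exponents -/

namespace Pool.Agent.W2helper60.RG

open Finset Filter
open Pool.Agent.H256R2.SC (ff)
open Pool.Agent.Y837.SV
open Pool.Agent.N542.PT (WellDist gen3A)

open scoped Classical

/-- record neighbourhoods of the values of given monomials at a member of a well distributed family -/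
theorem mono_mainA {ι : Type} [Fintype ι] (d : ℕ) (e : ι → Fin d → ℕ) (hinj : Function.Injective e)
    (he : ∀ j, Finset.univ.gcd (e j) = 1) :
    ∃ c : ℝ, 0 < c ∧ ∃ Z₀ : ℝ, ∀ Z : ℝ, Z₀ ≤ Z → ∀ (α : Type) (s : Finset α) (w : α → Fin d → ℤ),
      s.Nonempty → WellDist Z s w → ∃ a ∈ s, ∀ j, ∀ h : ℤ, |(h : ℝ)| ≤ c * ff Z →
        ∃ p : ℕ, p.Prime ∧ (p : ℝ) ≤ Z ^ (1 / 10 : ℝ) ∧ (p : ℤ) ∣ (∏ i, w a i ^ e j i) + h := by
  obtain ⟨K, hK⟩ : ∃ K : ℝ, K = (d : ℝ) + 2 + ∑ i : ι, ∑ j : ι, ∑ s : Fin d, ∑ t : Fin d,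
      (((e i s : ℤ) * e j t - e i t * e j s).natAbs : ℝ) ^ 2 := ⟨_, rfl⟩
  have hsum0 : 0 ≤ ∑ i : ι, ∑ j : ι, ∑ s : Fin d, ∑ t : Fin d,
      (((e i s : ℤ) * e j t - e i t * e j s).natAbs : ℝ) ^ 2 :=
    Finset.sum_nonneg fun i _ => Finset.sum_nonneg fun j _ => Finset.sum_nonneg fun s _ =>
      Finset.sum_nonneg fun t _ => by positivity
  have hKd : (d : ℝ) + 2 ≤ K := by rw [hK]; linarith
  have hK0 : 0 ≤ K := by
    have : (0 : ℝ) ≤ d := Nat.cast_nonneg d
    linarith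
  have hzero : ∀ j, ∏ i, (0 : ℤ) ^ e j i = 0 := by
    intro j
    obtain ⟨w, hw⟩ := exists_bez (e j) (he j)
    have h1 : ∃ i, e j i ≠ 0 := by
      by_contra hcon
      push Not at hcon
      simp [hcon] at hw
    obtain ⟨i, hi⟩ := h1
    apply Finset.prod_eq_zero (mem_univ i)
    simp [hi]
  refine gen3A d (fun j p x => ∏ i, x i ^ e j i) (fun j x => ∏ i, x i ^ e j i) ?_ 2 (fun _ _ => 0)
    (fun p => if p = 2 then (fun _ => 0) else (fun _ => 1)) ?_ ?_ (fun _ => {0}) ?_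
    K (1 / 2) hK0 (by norm_num) le_rfl ?_ ?_
  · intro j p x
    push_cast
    rfl
  · intro p hp hp2 j
    rw [hzero j]
    exact dvd_zero _
  · intro p hp hp2 j
    have h1 : (if p = 2 then (fun _ : Fin d => (0 : ℤ)) else (fun _ => 1)) = fun _ => 1 :=
      if_neg (by omega)
    rw [h1]
    simp only [one_pow, prod_const_one]
    intro h
    have h2 : (p : ℤ) ≤ 1 := Int.le_of_dvd one_pos h
    have h3 := hp.two_le
    omega
  · intro j r hr
    rw [mem_singleton] at hr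
    refine ⟨2, Nat.prime_two, le_rfl, ?_⟩
    rw [if_pos rfl, hr, hzero j]
    exact dvd_zero _
  · intro p hp hp2 j r hr
    have : Fact p.Prime := ⟨hp⟩
    have hp0 : (0 : ℝ) < p := by exact_mod_cast hp.pos
    have hp1 : (1 : ℝ) ≤ p := by exact_mod_cast hp.one_lt.le
    have hr0 : r ≠ 0 := by
      intro h
      refine hr 0 (mem_singleton_self _) ?_
      rw [h]
      simp
    have h1 := mono_U (p := p) (e j) (he j) r hr0
    rw [Nat.card_eq_fintype_card, Fintype.card_subtype]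
    have h2 : |(p : ℝ) * ((univ.filter (fun x : Fin d → ZMod p => ∏ i, x i ^ e j i = r)).card : ℝ) -
        (p : ℝ) ^ d| ≤ ((d : ℝ) + 2) * (p : ℝ) ^ d / p := by
      rw [le_div_iff₀ hp0]
      exact h1
    refine le_trans ?_ (h2.trans ?_)
    · exact le_rfl
    · have h3 : (1 : ℝ) / p ≤ (p : ℝ) ^ (-(1 / 2) : ℝ) := by
        have : (1 : ℝ) / p = (p : ℝ) ^ (-1 : ℝ) := by
          rw [Real.rpow_neg_one, one_div]
        rw [this]
        exact Real.rpow_le_rpow_of_exponent_le hp1 (by norm_num)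
      calc ((d : ℝ) + 2) * (p : ℝ) ^ d / p = ((d : ℝ) + 2) * (p : ℝ) ^ d * (1 / p) := by ring
        _ ≤ K * (p : ℝ) ^ d * (p : ℝ) ^ (-(1 / 2) : ℝ) := by
            apply mul_le_mul _ h3 (by positivity) (by positivity)
            exact mul_le_mul_of_nonneg_right hKd (by positivity)
  · intro p hp hp2 i j hij r r' hr hr'
    have : Fact p.Prime := ⟨hp⟩
    have hz : ∀ r : ZMod p, (∀ v ∈ ({0} : Finset ℤ), r ≠ (v : ZMod p)) → r ≠ 0 := by
      intro r hr h
      refine hr 0 (mem_singleton_self _) ?_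
      rw [h]
      simp
    have hr0 := hz r hr
    have hr0' := hz r' hr'
    obtain ⟨s, t, hst⟩ := exists_minor (e i) (e j) (he i) (he j) (fun h => hij (hinj h))
    have h1 := mono_pair (p := p) (e i) (e j) s t hst r r' hr0 hr0'
    rw [Nat.card_eq_fintype_card, Fintype.card_subtype]
    have h2 : (p : ℝ) ^ 2 * ((univ.filter (fun x : Fin d → ZMod p =>
        ∏ l, x l ^ e i l = r ∧ ∏ l, x l ^ e j l = r')).card : ℝ) ≤
        (((e i s : ℤ) * e j t - e i t * e j s).natAbs : ℝ) ^ 2 * (p : ℝ) ^ d := by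
      rw [mul_comm]
      exact_mod_cast h1
    refine le_trans ?_ (h2.trans ?_)
    · exact le_rfl
    · apply mul_le_mul_of_nonneg_right _ (by positivity)
      have h3 : (((e i s : ℤ) * e j t - e i t * e j s).natAbs : ℝ) ^ 2 ≤
          ∑ i : ι, ∑ j : ι, ∑ s : Fin d, ∑ t : Fin d,
            (((e i s : ℤ) * e j t - e i t * e j s).natAbs : ℝ) ^ 2 := by
        have a1 := Finset.single_le_sum (f := fun t : Fin d =>
          (((e i s : ℤ) * e j t - e i t * e j s).natAbs : ℝ) ^ 2) (fun t _ => by positivity) (mem_univ t)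
        have a2 := Finset.single_le_sum (f := fun s : Fin d => ∑ t : Fin d,
          (((e i s : ℤ) * e j t - e i t * e j s).natAbs : ℝ) ^ 2)
          (fun s _ => Finset.sum_nonneg fun t _ => by positivity) (mem_univ s)
        have a3 := Finset.single_le_sum (f := fun j : ι => ∑ s : Fin d, ∑ t : Fin d,
          (((e i s : ℤ) * e j t - e i t * e j s).natAbs : ℝ) ^ 2)
          (fun j _ => Finset.sum_nonneg fun s _ => Finset.sum_nonneg fun t _ => by positivity)
          (mem_univ j)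
        have a4 := Finset.single_le_sum (f := fun i : ι => ∑ j : ι, ∑ s : Fin d, ∑ t : Fin d,
          (((e i s : ℤ) * e j t - e i t * e j s).natAbs : ℝ) ^ 2)
          (fun i _ => Finset.sum_nonneg fun j _ => Finset.sum_nonneg fun s _ =>
            Finset.sum_nonneg fun t _ => by positivity) (mem_univ i)
        exact ((a1.trans a2).trans a3).trans a4
      have h5 : (0 : ℝ) ≤ d := Nat.cast_nonneg d
      rw [hK]
      linarith

/-- all the monomials with coprime exponents up to `K` -/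
theorem monomialsA (d K : ℕ) : ∃ c : ℝ, 0 < c ∧ ∃ Z₀ : ℝ, ∀ Z : ℝ, Z₀ ≤ Z →
    ∀ (α : Type) (s : Finset α) (w : α → Fin d → ℤ), s.Nonempty → WellDist Z s w →
    ∃ a ∈ s, ∀ e : Fin d → ℕ, (∀ i, e i ≤ K) → Finset.univ.gcd e = 1 →
      ∀ n : ℤ, |(n : ℝ) - ∏ i, (w a i : ℝ) ^ e i| ≤ c * ff Z →
        ∃ p : ℕ, p.Prime ∧ (p : ℝ) ≤ Z ^ (1 / 10 : ℝ) ∧ (p : ℤ) ∣ n := by
  obtain ⟨c, hc, Z₀, h⟩ := mono_mainA (ι := {e : Fin d → Fin (K + 1) //
      Finset.univ.gcd (fun i => (e i : ℕ)) = 1}) d (fun e i => (e.1 i : ℕ)) (by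
    intro e e' h
    apply Subtype.ext
    funext i
    exact Fin.ext (congrFun h i)) (fun e => e.2)
  refine ⟨c, hc, Z₀, fun Z hZ α s w hs hw => ?_⟩
  obtain ⟨a, ha, hx2⟩ := h Z hZ α s w hs hw
  refine ⟨a, ha, fun e he hg n hn => ?_⟩
  obtain ⟨p, hp1, hp2, hp3⟩ := hx2 ⟨fun i => ⟨e i, Nat.lt_succ_of_le (he i)⟩, hg⟩
    (n - ∏ i, w a i ^ e i) (by push_cast; exact hn)
  refine ⟨p, hp1, hp2, ?_⟩
  have e : (∏ i, w a i ^ e i) + (n - ∏ i, w a i ^ e i) = n := by ring
  simp only at hp3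
  rwa [e] at hp3

end Pool.Agent.W2helper60.RG
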